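import Pool.Agent.H20.LX.T

/-!
Page lx (MP_52e316_nt), row EIX: invariance of the energy `Ew` (after Pool/Agent/H27/L1/H23/GHY/EID.lean).
-/

set_option autoImplicit false

namespace Pool.Agent.H88.LX

open MeasureTheory Pool.Agent.H27.L1.H34.GM Pool.Agent.H27.L1.H34.GZ Pool.Agent.H27.L1.H34.GU
  Pool.Agent.H27.L1.H34.GA Pool.Agent.H27.L1.H68.GHY Pool.Agent.H20.LX

theorem Ew_inv (hA : T_ALZ) (hB : T_ALU) (m q : ℕ) [NeZero q] (D : Set (V m)) (ω : ℕ → ENNReal)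
    (d x0 : ℝ) (γ : ZM m) (g : Mat m) (hm1 : 1 ≤ m) (hq : 1 ≤ q) (hγ : IsUnit γ) :
    Ew q D ω d x0 (cR γ * g) = Ew q D ω d x0 g := by
  obtain ⟨⟨⟨-, hR⟩, hdet⟩, -, -, -, hun, -, -⟩ := hA m q hm1 hq
  obtain ⟨h1, hM, -, -, -, hbij⟩ := hB m q hm1 hq
  have hnu : γ.det.natAbs = 1 := (hun γ).1 hγ
  obtain ⟨u, rfl⟩ := hγ
  have hd1 : |(cR (u : ZM m)).det| = 1 := by
    rw [(hdet _).2, hnu]
    norm_num
  have hP : ∀ (x : VN m q) (h : Mat m) (w : VN m q), Kw ω d x0 (cR (u : ZM m) * g) x h w =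
      Kw ω d x0 g (ac q ((u⁻¹ : (ZM m)ˣ) : ZM m) x) h w := by
    intro x h w
    unfold Kw
    symm
    rw [← Equiv.tsum_eq (Units.mulRight u)]
    refine tsum_congr fun α => ?_
    have e0 : (Units.mulRight u) α = α * (u : ZM m) := rfl
    rw [e0]
    have e1 : ac q (α * (u : ZM m)) (ac q ((u⁻¹ : (ZM m)ˣ) : ZM m) x) = ac q α x := by
      rw [← (hM _ _ _).1, mul_assoc, Units.mul_inv, mul_one]
    have e2 : (α * (u : ZM m)).det.natAbs = α.det.natAbs := by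
      rw [Matrix.det_mul, Int.natAbs_mul, hnu, mul_one]
    have e3 : aN (cR (α * (u : ZM m))) = aN (cR α) := by
      unfold aN
      rw [(hR _ _).1, Matrix.det_mul, abs_mul, hd1, mul_one]
    have e4 : aN (cR (u : ZM m) * g) = aN g := by
      unfold aN
      rw [Matrix.det_mul, abs_mul, hd1, one_mul]
    have e5 : kk (aN (cR (α * (u : ZM m)))) h (cR (α * (u : ZM m))) g =
        kk (aN (cR α)) h (cR α) (cR (u : ZM m) * g) := by
      unfold kk
      rw [e3, e4, (hR _ _).1]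
      simp only [mul_assoc]
    rw [e1, e2, e5]
  unfold Ew
  simp only [hP]
  exact (hbij _ (Units.isUnit _)).sum_comp fun x =>
    ∫⁻ k in D, ∑ z : VN m q, (Kw ω d x0 g x (mt k) z) ^ 2 ∂(Pool.Agent.H27.L1.H34.GM.hm m)

end Pool.Agent.H88.LX
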