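import Pool.Agent.H20.LX.T
import Pool.Agent.H88.LX.EIX
import Pool.Agent.H27.L1.H34.GM.MSR
import Pool.Agent.H27.L1.H69.GHY.KMD

/-!
Page lx (MP_52e316_nt), row ENX (second copy): the energy of the majorant with the weights `ω` of the
determinant (after Pool/Agent/H27/L1/H83/GHY/ENG.lean).
-/

set_option autoImplicit false

namespace Pool.Agent.H88.LX

open MeasureTheory Pool.Agent.H27.L1.H34.GM Pool.Agent.H27.L1.H34.GZ Pool.Agent.H27.L1.H34.GU
  Pool.Agent.H27.L1.H34.GA Pool.Agent.H27.L1.H68.GHY Pool.Agent.H20.LX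

/-- the kernel vanishes when the vector is not primitive -/
private lemma enx_P0 (hU : T_ALU) (m N : ℕ) [NeZero N] (h1 : 1 ≤ m) (h2 : 1 ≤ N) (ω : ℕ → ENNReal) (d x0 : ℝ)
    (g h : Mat m) (x w : VN m N) (hx : ¬ Pr x) : Kw ω d x0 g x h w = 0 := by
  obtain ⟨_, _, _, hu, _, _⟩ := hU m N h1 h2
  unfold Kw
  rw [ENNReal.tsum_eq_zero]
  intro α
  rw [if_neg]
  rintro ⟨ha, hb, _⟩
  rw [← ha] at hb
  exact hx (hu _ _ hb)

private lemma enx_det (m : ℕ) (h1 : 1 ≤ m) (z : Mat m) (h : 1 ≤ aN z) : z.det ≠ 0 := by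
  intro h0
  unfold aN at h
  have hm : (1 / (m : ℝ)) ≠ 0 := by
    have : (0 : ℝ) < m := by exact_mod_cast h1
    positivity
  rw [h0, abs_zero, Real.zero_rpow hm] at h
  linarith

private lemma enx_skw {m : ℕ} (a : Fin m → ℝ) (ha : ∀ i, 0 < a i) : 0 < skw a := by
  unfold skw
  refine Finset.prod_pos fun i _ => Finset.prod_pos fun j _ => ?_
  split_ifs
  · exact div_pos (ha j) (ha i)
  · exact one_pos

open Classical in
/-- the fibres of the kernel lattice have at most `N` elements -/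
private lemma enx_fib (hKLI : T_KLI) (m N : ℕ) [NeZero N] (h1 : 1 ≤ m) (h2 : 1 ≤ N)
    (G : AddSubgroup (Fin m → ℤ) → ENNReal) :
    ∑ x : VN m N, (if Pr x then G (kl x) else 0) ≤
      (N : ENNReal) * ∑' M : AddSubgroup (Fin m → ℤ), (if M.index = N then G M else 0) := by
  obtain ⟨hidx, hfib⟩ := hKLI m N h1 h2
  have e1 : ∀ x : VN m N, (if Pr x then G (kl x) else 0) =
      ∑' M : AddSubgroup (Fin m → ℤ), (if Pr x ∧ kl x = M then G M else 0) := by
    intro x
    by_cases hx : Pr x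
    · rw [if_pos hx, tsum_eq_single (kl x)]
      · rw [if_pos ⟨hx, rfl⟩]
      · intro M hM
        rw [if_neg]
        rintro ⟨_, h⟩
        exact hM h.symm
    · rw [if_neg hx, eq_comm, ENNReal.tsum_eq_zero]
      intro M
      rw [if_neg]
      rintro ⟨h, _⟩
      exact hx h
  calc ∑ x : VN m N, (if Pr x then G (kl x) else 0)
      = ∑' x : VN m N, ∑' M : AddSubgroup (Fin m → ℤ),
          (if Pr x ∧ kl x = M then G M else 0) := by
        rw [tsum_fintype]
        exact Finset.sum_congr rfl fun x _ => e1 x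
    _ = ∑' M : AddSubgroup (Fin m → ℤ), ∑' x : VN m N,
          (if Pr x ∧ kl x = M then G M else 0) := ENNReal.tsum_comm
    _ ≤ ∑' M : AddSubgroup (Fin m → ℤ), (N : ENNReal) * (if M.index = N then G M else 0) := by
        refine ENNReal.tsum_le_tsum fun M => ?_
        rw [tsum_fintype, ← Finset.sum_filter, Finset.sum_const, nsmul_eq_mul]
        have hc : (Finset.univ.filter fun x : VN m N => Pr x ∧ kl x = M).card ≤ N := by
          have h3 := hfib M
          rw [← Set.ncard_coe_finset]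
          refine le_trans (le_of_eq ?_) h3
          congr 1
          ext x
          simp
        by_cases hM : M.index = N
        · rw [if_pos hM]
          exact mul_le_mul' (by exact_mod_cast hc) le_rfl
        · have h0 : (Finset.univ.filter fun x : VN m N => Pr x ∧ kl x = M) = ∅ := by
            refine Finset.filter_eq_empty_iff.2 ?_
            rintro x _ ⟨hx, he⟩
            exact hM (by rw [← he]; exact hidx x hx)
          rw [h0]
          simp
    _ = (N : ENNReal) * ∑' M : AddSubgroup (Fin m → ℤ), (if M.index = N then G M else 0) :=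
        ENNReal.tsum_mul_left

private lemma enx_wdm (d : ℝ) (n : ℕ) : MeasurableSet {x0 : ℝ | wd x0 d n} := by
  have h : {x0 : ℝ | wd x0 d n} = {x0 : ℝ | x0 < (n : ℝ)} ∩ {x0 : ℝ | (n : ℝ) ≤ x0 * Real.exp d} := by
    ext x0
    rfl
  rw [h]
  refine MeasurableSet.inter (measurableSet_lt measurable_id measurable_const) ?_
  exact measurableSet_le measurable_const (measurable_id.mul_const _)

open Classical in
/-- the measure of the window -/
private lemma enx_win (d : ℝ) (hd : 0 < d) (n : ℕ) :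
    ∫⁻ x0 in Set.Ioi (0 : ℝ), (if wd x0 d n then ENNReal.ofReal x0⁻¹ else 0) ≤
      ENNReal.ofReal d := by
  rcases Nat.eq_zero_or_pos n with hn | hn
  · subst hn
    have h0 : ∫⁻ x0 in Set.Ioi (0 : ℝ), (if wd x0 d 0 then ENNReal.ofReal x0⁻¹ else 0) ≤
        ∫⁻ _x0 in Set.Ioi (0 : ℝ), (0 : ENNReal) := by
      refine setLIntegral_mono' measurableSet_Ioi fun x0 hx0 => ?_
      rw [if_neg]
      rintro ⟨h, _⟩
      have h3 : (0 : ℝ) < x0 := hx0
      rw [Nat.cast_zero] at h
      linarith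
    refine h0.trans ?_
    rw [lintegral_zero]
    exact bot_le
  · have hn0 : (0 : ℝ) < n := by exact_mod_cast hn
    set u : ℝ := (n : ℝ) * Real.exp (-d) with hu
    have hu0 : 0 < u := by positivity
    have hun : u ≤ n := by
      have h3 : Real.exp (-d) ≤ 1 := by
        rw [← Real.exp_zero]
        exact Real.exp_le_exp.2 (by linarith)
      nlinarith
    have h1 : ∫⁻ x0 in Set.Ioi (0 : ℝ), (if wd x0 d n then ENNReal.ofReal x0⁻¹ else 0) ≤
        ∫⁻ x0, (Set.Icc u n).indicator (fun x => ENNReal.ofReal x⁻¹) x0 := by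
      refine (setLIntegral_le_lintegral _ _).trans (lintegral_mono fun x0 => ?_)
      by_cases hw : wd x0 d n
      · rw [if_pos hw, Set.indicator_of_mem]
        refine ⟨?_, hw.1.le⟩
        have h4 := hw.2
        rw [hu]
        calc (n : ℝ) * Real.exp (-d) ≤ x0 * Real.exp d * Real.exp (-d) := by gcongr
          _ = x0 := by rw [mul_assoc, ← Real.exp_add, add_neg_cancel, Real.exp_zero, mul_one]
      · rw [if_neg hw]
        exact bot_le
    refine h1.trans ?_
    rw [lintegral_indicator measurableSet_Icc]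
    have hint : IntegrableOn (fun x : ℝ => x⁻¹) (Set.Icc u n) := by
      refine ContinuousOn.integrableOn_Icc ?_
      intro x hx
      exact (continuousAt_inv₀ (by have := hx.1; linarith : x ≠ 0)).continuousWithinAt
    rw [← ofReal_integral_eq_lintegral_ofReal hint]
    · rw [integral_Icc_eq_integral_Ioc, ← intervalIntegral.integral_of_le hun,
        integral_inv_of_pos hu0 hn0]
      refine ENNReal.ofReal_le_ofReal ?_
      rw [hu, show (n : ℝ) / ((n : ℝ) * Real.exp (-d)) = Real.exp d by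
        rw [Real.exp_neg]
        field_simp, Real.log_exp]
    · refine (ae_restrict_iff' measurableSet_Icc).2 (Filter.Eventually.of_forall fun x hx => ?_)
      exact inv_nonneg.2 (by have := hx.1; linarith)

open Classical in
/-- integration of a sum over sublattices with a window -/
private lemma enx_sum (m : ℕ) (d : ℝ) (hd : 0 < d) (G : AddSubgroup (Fin m → ℤ) → ENNReal) :
    ∫⁻ x0 in Set.Ioi (0 : ℝ), (∑' L : AddSubgroup (Fin m → ℤ),
      (if wd x0 d L.index then G L else 0)) * ENNReal.ofReal x0⁻¹ ≤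
      ENNReal.ofReal d * ∑' L : AddSubgroup (Fin m → ℤ), G L := by
  set S : ℕ → ENNReal := fun n => ∑' L : AddSubgroup (Fin m → ℤ),
    (if L.index = n then G L else 0) with hS
  have e0 : ∀ x0 : ℝ, ∀ L : AddSubgroup (Fin m → ℤ), (if wd x0 d L.index then G L else 0) =
      ∑' n : ℕ, (if wd x0 d n then (if L.index = n then G L else 0) else 0) := by
    intro x0 L
    rw [tsum_eq_single L.index]
    · rw [if_pos rfl]
    · intro n hn
      have h3 : ¬ L.index = n := fun h => hn h.symm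
      by_cases hw : wd x0 d n
      · rw [if_pos hw, if_neg h3]
      · rw [if_neg hw]
  have e1 : ∀ x0 : ℝ, (∑' L : AddSubgroup (Fin m → ℤ),
      (if wd x0 d L.index then G L else 0)) * ENNReal.ofReal x0⁻¹ =
      ∑' n : ℕ, S n * (if wd x0 d n then ENNReal.ofReal x0⁻¹ else 0) := by
    intro x0
    rw [tsum_congr (e0 x0), ENNReal.tsum_comm, ← ENNReal.tsum_mul_right]
    refine tsum_congr fun n => ?_
    by_cases hw : wd x0 d n
    · simp only [if_pos hw]
      rfl
    · simp only [if_neg hw]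
      simp
  have e2 : ∑' n : ℕ, S n = ∑' L : AddSubgroup (Fin m → ℤ), G L := by
    rw [hS, ENNReal.tsum_comm]
    refine tsum_congr fun L => ?_
    rw [tsum_eq_single L.index]
    · rw [if_pos rfl]
    · intro n hn
      rw [if_neg (fun h => hn h.symm)]
  have hmw : ∀ n : ℕ, Measurable (fun x0 : ℝ =>
      (if wd x0 d n then ENNReal.ofReal x0⁻¹ else 0)) := fun n =>
    Measurable.ite (enx_wdm d n) (ENNReal.measurable_ofReal.comp measurable_inv) measurable_const
  calc ∫⁻ x0 in Set.Ioi (0 : ℝ), (∑' L : AddSubgroup (Fin m → ℤ),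
      (if wd x0 d L.index then G L else 0)) * ENNReal.ofReal x0⁻¹
      = ∫⁻ x0 in Set.Ioi (0 : ℝ), ∑' n : ℕ, S n *
          (if wd x0 d n then ENNReal.ofReal x0⁻¹ else 0) := lintegral_congr fun x0 => e1 x0
    _ = ∑' n : ℕ, ∫⁻ x0 in Set.Ioi (0 : ℝ), S n *
          (if wd x0 d n then ENNReal.ofReal x0⁻¹ else 0) :=
        lintegral_tsum fun n => ((hmw n).const_mul _).aemeasurable
    _ ≤ ∑' n : ℕ, S n * ENNReal.ofReal d := by
        refine ENNReal.tsum_le_tsum fun n => ?_
        rw [lintegral_const_mul _ (hmw n)]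
        exact mul_le_mul' le_rfl (enx_win d hd n)
    _ = ENNReal.ofReal d * ∑' L : AddSubgroup (Fin m → ℤ), G L := by
        rw [ENNReal.tsum_mul_right, e2, mul_comm]

theorem kw_meas (m N : ℕ) (ω : ℕ → ENNReal) (d : ℝ) (x w : VN m N) :
    Measurable (fun p : ℝ × V m × V m => Kw ω d p.1 (mt p.2.1) x (mt p.2.2) w) := by
  classical
  obtain ⟨-, -, -, hsz, -, -, hkk, hΦc⟩ := pf_MSR.1 m
  have hct : Countable (ZM m) := (inferInstance : Countable (Fin m → Fin m → ℤ))
  unfold Kw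
  refine Measurable.tsum fun γ => ?_
  refine Measurable.ite ?_ measurable_const measurable_const
  have h1 := Pool.Agent.H27.L1.H69.GHY.kmd_kk (fun z => sz (z - 1)) (cR γ)
    (hkk (aN (cR γ)) (cR γ)) (Pool.Agent.H27.L1.H69.GHY.kmd_sz m)
  have h1' := h1.comp (measurable_snd : Measurable (fun p : ℝ × V m × V m => p.2))
  have h2 : MeasurableSet {p : ℝ × V m × V m |
      sz (kk (aN (cR γ)) (mt p.2.2) (cR γ) (mt p.2.1) - 1) ≤ d} :=
    measurableSet_le h1' measurable_const
  have h3 : MeasurableSet {p : ℝ × V m × V m | wd p.1 d γ.det.natAbs} := by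
    refine MeasurableSet.inter ?_ ?_
    · exact measurableSet_lt measurable_fst measurable_const
    · exact measurableSet_le measurable_const (measurable_fst.mul_const _)
  refine MeasurableSet.inter (MeasurableSet.const _) ?_
  refine MeasurableSet.inter (MeasurableSet.const _) ?_
  exact MeasurableSet.inter h3 h2

/-- joint measurability of the energy -/
theorem ew_meas (m N : ℕ) [NeZero N] (D : Set (V m)) (ω : ℕ → ENNReal) (d : ℝ) :
    Measurable (fun p : ℝ × V m => Ew N D ω d p.1 (mt p.2)) := by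
  have hsf : SFinite (Pool.Agent.H27.L1.H34.GM.hm m) := by
    unfold Pool.Agent.H27.L1.H34.GM.hm; infer_instance
  unfold Ew
  refine Finset.measurable_sum _ fun x _ => ?_
  have h3 : Measurable (fun q : (ℝ × V m) × V m =>
      ∑ w : VN m N, (Kw ω d q.1.1 (mt q.1.2) x (mt q.2) w) ^ 2) := by
    refine Finset.measurable_sum _ fun w _ => ?_
    refine Measurable.pow_const ?_ 2
    exact (kw_meas m N ω d x w).comp (f := fun q : (ℝ × V m) × V m => (q.1.1, q.1.2, q.2))
      (measurable_fst.fst.prodMk (measurable_fst.snd.prodMk measurable_snd))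
  exact h3.lintegral_prod_right'

open Classical in
/-- the bound at one point, with one system of Siegel data -/
private lemma enx_pt (hA : T_ALZ) (hU : T_ALU) (hKLI : T_KLI) (hSEX : T_SEX)
    (m : ℕ) (h1 : 1 ≤ m)
    (C2 C0 C3 ε : ℝ) (K3 : ℕ) (hC2 : 0 < C2) (hC3 : 0 < C3)
    (N : ℕ) [NeZero N] (D : Set (V m)) (h2 : 1 ≤ N) (hD : DomZ m D) (d : ℝ) (hd : 0 < d)
    (ω : ℕ → ENNReal)
    (H2 : ∀ x0 : ℝ, 0 < x0 →
      ∀ (b n : Mat m) (a : Fin m → ℝ) (k : Mat m), Sgl b n a k →
      ∀ (sel : AddSubgroup (Fin m → ℤ) → ZM m) (vs : AddSubgroup (Fin m → ℤ) → Fin m → ℝ),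
      Sel b sel vs → ∀ x : VN m N, Pr x →
      ∫⁻ h in D, ∑ z : VN m N, (Kw ω d x0 b x (mt h) z) ^ 2 ∂(hm m) ≤
      ENNReal.ofReal (C2 * d ^ (m ^ 2 - 1)) * ∑' L : AddSubgroup (Fin m → ℤ),
        (if wd x0 d L.index ∧ L.index ≠ 0 then ω L.index ^ 2 *
            ENNReal.ofReal (∏ i, ∏ j, (1 + C0 * d * vs L i / vs (kl x) j)) else 0))
    (H3 : ∀ (b n : Mat m) (a : Fin m → ℝ) (k : Mat m), Sgl b n a k →
      1 ≤ aN b → aN b < Real.exp 1 → ∀ Y : ℝ, 1 ≤ Y →
      (∀ i j : Fin m, (i : ℕ) + 1 = j → a j ≤ Y * a i) → ∀ l : ℕ, 1 ≤ l →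
      ∀ (sel : AddSubgroup (Fin m → ℤ) → ZM m) (vs : AddSubgroup (Fin m → ℤ) → Fin m → ℝ),
      Sel b sel vs →
      ∑' M : AddSubgroup (Fin m → ℤ), ∑' L : AddSubgroup (Fin m → ℤ),
      (if M.index = N ∧ L.index = l then
          ENNReal.ofReal (∏ i, ∏ j, (1 + C0 * d * vs L i / vs M j)) else 0) ≤
      ENNReal.ofReal (C3 * (1 + Real.log (l * Y * N)) ^ K3 * (N : ℝ) ^ ((m : ℝ) - 1 + ε) *
        (l : ℝ) ^ ((m : ℝ) - 1 + ε) * (1 + d ^ m * l / N) ^ m * skw a))
    (y : ℕ) (Y : ℝ) (hy : 1 ≤ y) (hωy : ∀ n, y < n → ω n = 0) (hY : 2 ≤ Y) (g : V m)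
    (hg : g ∈ DY D Y) (γ : ZM m) (hγ : IsUnit γ)
    (n : Mat m) (a : Fin m → ℝ) (k : Mat m) (hS : Sgl (cR γ * mt g) n a k) :
    ∫⁻ x0 in Set.Ioi (0 : ℝ), Ew N D ω d x0 (mt g) * ENNReal.ofReal x0⁻¹ ≤
      (ENNReal.ofReal (C2 * d ^ (m ^ 2 - 1) * (d * ((N : ℝ) *
      (C3 * (1 + Real.log (y * Y * N)) ^ K3 * (N : ℝ) ^ ((m : ℝ) - 1 + ε))))) *
        ∑ n ∈ Finset.Icc 1 y, ω n ^ 2 *
          ENNReal.ofReal ((n : ℝ) ^ ((m : ℝ) - 1 + ε) * (1 + d ^ m * n / N) ^ m)) *
        ENNReal.ofReal (skw a) := by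
  obtain ⟨⟨_, hA2⟩, _, _, _, hunit, _, _⟩ := hA m N h1 h2
  have hsh := hD.shell g hg.1
  have hgd : (mt g).det ≠ 0 := enx_det m h1 _ hsh.1
  have hγd : |(cR γ).det| = 1 := by
    rw [(hA2 γ).2, (hunit γ).1 hγ]
    norm_num
  set b : Mat m := cR γ * mt g with hb
  have hbd : |b.det| = |(mt g).det| := by
    rw [hb, Matrix.det_mul, abs_mul, hγd, one_mul]
  have hbd0 : b.det ≠ 0 := by
    rw [← abs_ne_zero, hbd, abs_ne_zero]
    exact hgd
  have hbN : aN b = aN (mt g) := by
    unfold aN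
    rw [hbd]
  have hN1 : (1 : ℝ) ≤ N := by exact_mod_cast h2
  have hy1 : (1 : ℝ) ≤ y := by exact_mod_cast hy
  have hyY : 1 ≤ (y : ℝ) * Y := by nlinarith
  have hlog : 0 ≤ Real.log (y * Y * N) := Real.log_nonneg (by nlinarith)
  set E : ℝ := C3 * (1 + Real.log (y * Y * N)) ^ K3 * (N : ℝ) ^ ((m : ℝ) - 1 + ε) with hE
  have hE0 : 0 ≤ E := by positivity
  have hsk : 0 < skw a := enx_skw a hS.pos
  obtain ⟨sel, vs, hsel⟩ := hSEX m b hbd0
  set G : AddSubgroup (Fin m → ℤ) → ENNReal := fun M => ∑' L : AddSubgroup (Fin m → ℤ),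
        (if L.index ≠ 0 then ω L.index ^ 2 *
            ENNReal.ofReal (∏ i, ∏ j, (1 + C0 * d * vs L i / vs M j)) else 0) with hG
  set GG : AddSubgroup (Fin m → ℤ) → ENNReal := fun L => ∑ x : VN m N, (if Pr x then
        (if L.index ≠ 0 then ω L.index ^ 2 *
            ENNReal.ofReal (∏ i, ∏ j, (1 + C0 * d * vs L i / vs (kl x) j)) else 0) else 0) with hGG
  have hx : ∀ x0 : ℝ, 0 < x0 → Ew N D ω d x0 (mt g) ≤ ENNReal.ofReal (C2 * d ^ (m ^ 2 - 1)) *
      ∑' L : AddSubgroup (Fin m → ℤ), (if wd x0 d L.index then GG L else 0) := by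
    intro x0 hx0
    rw [← Ew_inv hA hU m N D ω d x0 γ (mt g) h1 h2 hγ]
    have h5 : ∀ x : VN m N, ∫⁻ h in D, ∑ w : VN m N, (Kw ω d x0 b x (mt h) w) ^ 2 ∂(hm m) ≤
        ENNReal.ofReal (C2 * d ^ (m ^ 2 - 1)) * ∑' L : AddSubgroup (Fin m → ℤ),
          (if wd x0 d L.index then (if Pr x then
            (if L.index ≠ 0 then ω L.index ^ 2 *
                ENNReal.ofReal (∏ i, ∏ j, (1 + C0 * d * vs L i / vs (kl x) j)) else 0) else 0)
                  else 0) := by
      intro x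
      by_cases hxu : Pr x
      · refine (H2 x0 hx0 b n a k hS sel vs hsel x hxu).trans ?_
        refine mul_le_mul' le_rfl (le_of_eq (tsum_congr fun L => ?_))
        by_cases hw : wd x0 d L.index
        · rw [if_pos hw, if_pos hxu]
          by_cases hL : L.index ≠ 0
          · rw [if_pos hL, if_pos ⟨hw, hL⟩]
          · rw [if_neg hL, if_neg (fun h => hL h.2)]
        · rw [if_neg hw, if_neg (fun h => hw h.1)]
      · have h4 : ∀ h : V m, ∑ w : VN m N, (Kw ω d x0 b x (mt h) w) ^ 2 = 0 := fun h =>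
          Finset.sum_eq_zero fun w _ => by
            rw [enx_P0 hU m N h1 h2 ω d x0 b (mt h) x w hxu]
            simp
        simp only [h4, lintegral_zero]
        exact bot_le
    refine (Finset.sum_le_sum fun x _ => h5 x).trans (le_of_eq ?_)
    rw [← Finset.mul_sum]
    refine congrArg _ ?_
    rw [← tsum_fintype (L := .unconditional _), ENNReal.tsum_comm]
    refine tsum_congr fun L => ?_
    rw [tsum_fintype]
    by_cases hw : wd x0 d L.index
    · simp only [if_pos hw]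
      rfl
    · simp only [if_neg hw]
      simp
  have hGx : ∑' L : AddSubgroup (Fin m → ℤ), GG L =
      ∑ x : VN m N, (if Pr x then G (kl x) else 0) := by
    rw [← tsum_fintype (L := .unconditional _)]
    have h6 : ∀ x : VN m N, (if Pr x then G (kl x) else 0) = ∑' L : AddSubgroup (Fin m → ℤ),
        (if Pr x then (if L.index ≠ 0 then ω L.index ^ 2 *
            ENNReal.ofReal (∏ i, ∏ j, (1 + C0 * d * vs L i / vs (kl x) j)) else 0) else 0) := by
      intro x
      by_cases hxu : Pr x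
      · simp only [if_pos hxu]
        rfl
      · simp only [if_neg hxu]
        simp
    rw [tsum_congr h6, ENNReal.tsum_comm]
    refine tsum_congr fun L => ?_
    rw [tsum_fintype]
  set S : ENNReal := ∑ n ∈ Finset.Icc 1 y, ω n ^ 2 *
          ENNReal.ofReal ((n : ℝ) ^ ((m : ℝ) - 1 + ε) * (1 + d ^ m * n / N) ^ m) with hSdef
  have hM : ∑' M : AddSubgroup (Fin m → ℤ), (if M.index = N then G M else 0) ≤
      S * ENNReal.ofReal (E * skw a) := by
    have g1 : ∀ M : AddSubgroup (Fin m → ℤ), (if M.index = N then G M else 0) ≤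
        ∑ l ∈ Finset.Icc 1 y, ω l ^ 2 * ∑' L : AddSubgroup (Fin m → ℤ),
          (if M.index = N ∧ L.index = l then
            ENNReal.ofReal (∏ i, ∏ j, (1 + C0 * d * vs L i / vs M j)) else 0) := by
      intro M
      by_cases hMi : M.index = N
      · rw [if_pos hMi]
        have g2 : ∀ L : AddSubgroup (Fin m → ℤ), (if L.index ≠ 0 then ω L.index ^ 2 *
            ENNReal.ofReal (∏ i, ∏ j, (1 + C0 * d * vs L i / vs M j)) else 0) ≤
            ∑ l ∈ Finset.Icc 1 y, ω l ^ 2 * (if M.index = N ∧ L.index = l then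
              ENNReal.ofReal (∏ i, ∏ j, (1 + C0 * d * vs L i / vs M j)) else 0) := by
          intro L
          by_cases hL : L.index ≠ 0
          · rw [if_pos hL]
            by_cases hLy : L.index ≤ y
            · refine le_trans (le_of_eq ?_) (Finset.single_le_sum (f := fun l => ω l ^ 2 *
                (if M.index = N ∧ L.index = l then
                  ENNReal.ofReal (∏ i, ∏ j, (1 + C0 * d * vs L i / vs M j)) else 0))
                (fun _ _ => bot_le) (Finset.mem_Icc.2 ⟨Nat.one_le_iff_ne_zero.2 hL, hLy⟩))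
              show _ = ω L.index ^ 2 * (if M.index = N ∧ L.index = L.index then _ else 0)
              rw [if_pos ⟨hMi, rfl⟩]
            · rw [hωy _ (by omega)]
              simp
          · rw [if_neg hL]
            exact bot_le
        refine (ENNReal.tsum_le_tsum g2).trans (le_of_eq ?_)
        rw [Summable.tsum_finsetSum (fun _ _ => ENNReal.summable)]
        refine Finset.sum_congr rfl fun l _ => ?_
        rw [ENNReal.tsum_mul_left]
      · rw [if_neg hMi]
        exact bot_le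
    refine (ENNReal.tsum_le_tsum g1).trans ?_
    rw [Summable.tsum_finsetSum (fun _ _ => ENNReal.summable), hSdef, Finset.sum_mul]
    refine Finset.sum_le_sum fun l hl => ?_
    rw [Finset.mem_Icc] at hl
    rw [ENNReal.tsum_mul_left, mul_assoc]
    refine mul_le_mul' le_rfl ?_
    refine (H3 b n a k hS (by rw [hbN]; exact hsh.1)
      (by rw [hbN]; exact hsh.2) Y (by linarith) (hg.2 γ hγ n a k hS) l hl.1 sel vs hsel).trans ?_
    have hl1 : (1 : ℝ) ≤ l := by exact_mod_cast hl.1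
    have hly : (l : ℝ) ≤ y := by exact_mod_cast hl.2
    rw [← ENNReal.ofReal_mul (by positivity)]
    refine ENNReal.ofReal_le_ofReal ?_
    have hll : Real.log (l * Y * N) ≤ Real.log (y * Y * N) := by
      refine Real.log_le_log (by positivity) ?_
      gcongr
    have hl0 : 0 ≤ Real.log (l * Y * N) := Real.log_nonneg (by
      have : 1 ≤ (l : ℝ) * Y := by nlinarith
      nlinarith)
    calc C3 * (1 + Real.log (l * Y * N)) ^ K3 * (N : ℝ) ^ ((m : ℝ) - 1 + ε) *
          (l : ℝ) ^ ((m : ℝ) - 1 + ε) * (1 + d ^ m * l / N) ^ m * skw a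
        ≤ C3 * (1 + Real.log (y * Y * N)) ^ K3 * (N : ℝ) ^ ((m : ℝ) - 1 + ε) *
          (l : ℝ) ^ ((m : ℝ) - 1 + ε) * (1 + d ^ m * l / N) ^ m * skw a := by gcongr
      _ = _ := by
          rw [hE]
          ring
  calc ∫⁻ x0 in Set.Ioi (0 : ℝ), Ew N D ω d x0 (mt g) * ENNReal.ofReal x0⁻¹
      ≤ ∫⁻ x0 in Set.Ioi (0 : ℝ), ENNReal.ofReal (C2 * d ^ (m ^ 2 - 1)) *
          ((∑' L : AddSubgroup (Fin m → ℤ), (if wd x0 d L.index then GG L else 0)) *
            ENNReal.ofReal x0⁻¹) := by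
        refine setLIntegral_mono' measurableSet_Ioi fun x0 hx0 => ?_
        rw [← mul_assoc]
        exact mul_le_mul' (hx x0 hx0) le_rfl
    _ = ENNReal.ofReal (C2 * d ^ (m ^ 2 - 1)) * ∫⁻ x0 in Set.Ioi (0 : ℝ),
          ((∑' L : AddSubgroup (Fin m → ℤ), (if wd x0 d L.index then GG L else 0)) *
            ENNReal.ofReal x0⁻¹) := lintegral_const_mul' _ _ ENNReal.ofReal_ne_top
    _ ≤ ENNReal.ofReal (C2 * d ^ (m ^ 2 - 1)) * (ENNReal.ofReal d *
          ((N : ENNReal) * (S * ENNReal.ofReal (E * skw a)))) := by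
        refine mul_le_mul' le_rfl ((enx_sum m d hd GG).trans (mul_le_mul' le_rfl ?_))
        rw [hGx]
        exact (enx_fib hKLI m N h1 h2 G).trans (mul_le_mul' le_rfl hM)
    _ = _ := by
        rw [← ENNReal.ofReal_natCast N, ENNReal.ofReal_mul (p := E) hE0,
          ENNReal.ofReal_mul (p := C2 * d ^ (m ^ 2 - 1)) (by positivity),
          ENNReal.ofReal_mul (p := d) hd.le, ENNReal.ofReal_mul (p := (N : ℝ)) (by positivity)]
        ring

/-- the energy on `DY`, averaged over the window -/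
theorem pf_ENX (hH2 : T_H2X) (hEMX : T_EMX) (hKLI : T_KLI)
    (hVLM : T_VLM) (hSEX : T_SEX) (hDYM : T_DYM) (hU : T_ALU) (hA : T_ALZ) : T_ENX := by
  intro m h1 ε hε
  obtain ⟨C2, C0, hC2, hC0, H2⟩ := hH2 m h1
  obtain ⟨C3, K3, hC3, H3⟩ := hEMX m h1 C0 ε hC0 hε
  obtain ⟨C4, K4, hC4, H4⟩ := hVLM m h1
  refine ⟨C2 * C3 * C4, K3 + K4, by positivity, ?_⟩
  intro N _ D h2 hD ω hω0 hωT y hy hωy Y d hY hd0 hd
  have hsf : SFinite (Pool.Agent.H27.L1.H34.GM.hm m) := by
    unfold Pool.Agent.H27.L1.H34.GM.hm; infer_instance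
  have hN1 : (1 : ℝ) ≤ N := by exact_mod_cast h2
  have hN0 : (0 : ℝ) < N := by linarith
  have hy1 : (1 : ℝ) ≤ y := by exact_mod_cast hy
  have hy0 : (0 : ℝ) < y := by linarith
  have hlogY : 0 ≤ Real.log Y := Real.log_nonneg (by linarith)
  have hyY : Y ≤ y * Y * N := by
    have h3 : Y ≤ y * Y := by nlinarith
    have h4 : (y : ℝ) * Y ≤ y * Y * N := by nlinarith
    linarith
  have hlog : Real.log Y ≤ Real.log (y * Y * N) := Real.log_le_log (by linarith) hyY
  set S : ENNReal := ∑ n ∈ Finset.Icc 1 y, ω n ^ 2 *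
          ENNReal.ofReal ((n : ℝ) ^ ((m : ℝ) - 1 + ε) * (1 + d ^ m * n / N) ^ m) with hSdef
  set A : ℝ := C2 * d ^ (m ^ 2 - 1) * (d * ((N : ℝ) *
      (C3 * (1 + Real.log (y * Y * N)) ^ K3 * (N : ℝ) ^ ((m : ℝ) - 1 + ε)))) with hAdef
  have hA0 : 0 < A := by
    have : 0 < 1 + Real.log (y * Y * N) := by linarith
    positivity
  have hA1 : ENNReal.ofReal A ≠ 0 := by
    rw [Ne, ENNReal.ofReal_eq_zero, not_le]
    exact hA0
  have hST : S ≠ ⊤ := by
    rw [hSdef]
    exact ENNReal.sum_ne_top.2 fun n _ =>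
      ENNReal.mul_ne_top (ENNReal.pow_ne_top (hωT n)) ENNReal.ofReal_ne_top
  have hpt : ∀ g ∈ DY D Y, ∫⁻ x0 in Set.Ioi (0 : ℝ), Ew N D ω d x0 (mt g) *
      ENNReal.ofReal x0⁻¹ ≤ (ENNReal.ofReal A * S) * Tht (mt g) := by
    intro g hg
    by_cases hS0 : S = 0
    · have g1 : ∀ n, ω n = 0 := by
        intro n
        rcases Nat.eq_zero_or_pos n with h | h
        · rw [h]
          exact hω0
        · by_cases hny : n ≤ y
          · rw [hSdef, Finset.sum_eq_zero_iff] at hS0
            have g2 := hS0 n (Finset.mem_Icc.2 ⟨h, hny⟩)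
            have hn0 : (0 : ℝ) < n := by exact_mod_cast h
            have g3 : ENNReal.ofReal ((n : ℝ) ^ ((m : ℝ) - 1 + ε) *
                (1 + d ^ m * n / N) ^ m) ≠ 0 := by
              rw [Ne, ENNReal.ofReal_eq_zero, not_le]
              positivity
            have g4 := (mul_eq_zero.1 g2).resolve_right g3
            exact pow_eq_zero_iff (two_ne_zero) |>.1 g4
          · exact hωy n (by omega)
      have g2 : ∀ x0 : ℝ, Ew N D ω d x0 (mt g) = 0 := by
        intro x0
        unfold Ew Kw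
        simp only [g1, ite_self, tsum_zero]
        simp
      simp only [g2, zero_mul, lintegral_zero]
      exact bot_le
    have hA2 : ENNReal.ofReal A * S ≠ 0 := mul_ne_zero hA1 hS0
    have hA3 : ENNReal.ofReal A * S ≠ ⊤ := ENNReal.mul_ne_top ENNReal.ofReal_ne_top hST
    have h5 : (∫⁻ x0 in Set.Ioi (0 : ℝ), Ew N D ω d x0 (mt g) *
        ENNReal.ofReal x0⁻¹) / (ENNReal.ofReal A * S) ≤ Tht (mt g) := by
      unfold Tht
      refine le_iInf fun γ => le_iInf fun hγ => le_iInf fun n => le_iInf fun a =>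
        le_iInf fun k => le_iInf fun hS => ?_
      refine ENNReal.div_le_of_le_mul' ?_
      exact enx_pt hA hU hKLI hSEX m h1 C2 C0 C3 ε K3 hC2 hC3 N D h2 hD d hd0 ω
        (fun x0 hx0 b n a k hS sel vs hs x hx =>
          H2 N D h2 hD ω hω0 hωT x0 d hx0 hd0 hd b n a k hS sel vs hs x hx)
        (fun b n a k hS hb1 hb2 Y hY hgap l hl sel vs hs =>
          H3 d hd0 (by linarith) N h2 b n a k hS hb1 hb2 Y hY hgap l hl sel vs hs)
        y Y hy hωy hY g hg γ hγ n a k hS
    rw [ENNReal.div_le_iff' hA2 hA3] at h5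
    exact h5
  have hjm : Measurable (Function.uncurry fun (x0 : ℝ) (g : V m) =>
      Ew N D ω d x0 (mt g) * ENNReal.ofReal x0⁻¹) :=
    (ew_meas m N D ω d).mul
      ((ENNReal.measurable_ofReal.comp measurable_inv).comp measurable_fst)
  calc ∫⁻ x0 in Set.Ioi (0 : ℝ), (∫⁻ g in DY D Y, Ew N D ω d x0 (mt g) ∂(hm m)) *
        ENNReal.ofReal x0⁻¹
      = ∫⁻ x0 in Set.Ioi (0 : ℝ), ∫⁻ g in DY D Y, Ew N D ω d x0 (mt g) *
          ENNReal.ofReal x0⁻¹ ∂(hm m) :=
        lintegral_congr fun x0 => (lintegral_mul_const' _ _ ENNReal.ofReal_ne_top).symm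
    _ = ∫⁻ g in DY D Y, (∫⁻ x0 in Set.Ioi (0 : ℝ), Ew N D ω d x0 (mt g) *
          ENNReal.ofReal x0⁻¹) ∂(hm m) := lintegral_lintegral_swap hjm.aemeasurable
    _ ≤ ∫⁻ g in DY D Y, (ENNReal.ofReal A * S) * Tht (mt g) ∂(hm m) :=
        setLIntegral_mono' (hDYM m D hD Y) hpt
    _ = (ENNReal.ofReal A * S) * ∫⁻ g in DY D Y, Tht (mt g) ∂(hm m) :=
        lintegral_const_mul' _ _ (ENNReal.mul_ne_top ENNReal.ofReal_ne_top hST)
    _ ≤ (ENNReal.ofReal A * S) * ENNReal.ofReal (C4 * (1 + Real.log Y) ^ K4) :=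
        mul_le_mul' le_rfl ((H4 D hD).2 Y hY)
    _ = ENNReal.ofReal (A * (C4 * (1 + Real.log Y) ^ K4)) * S := by
        rw [ENNReal.ofReal_mul hA0.le]
        ring
    _ ≤ _ := by
        refine mul_le_mul' (ENNReal.ofReal_le_ofReal ?_) le_rfl
        have h7 : (1 + Real.log Y) ^ K4 ≤ (1 + Real.log (y * Y * N)) ^ K4 := by gcongr
        have h8 : (N : ℝ) * (N : ℝ) ^ ((m : ℝ) - 1 + ε) = (N : ℝ) ^ ((m : ℝ) + ε) := by
          nth_rewrite 1 [← Real.rpow_one (N : ℝ)]
          rw [← Real.rpow_add hN0]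
          congr 1
          ring
        have h9 : d ^ (m ^ 2 - 1) * d = d ^ (m ^ 2) := by
          rw [← pow_succ]
          congr 1
          have : 1 ≤ m ^ 2 := Nat.one_le_pow _ _ (by omega)
          omega
        calc A * (C4 * (1 + Real.log Y) ^ K4) ≤ A * (C4 * (1 + Real.log (y * Y * N)) ^ K4) := by
              gcongr
          _ = C2 * C3 * C4 * (d ^ (m ^ 2 - 1) * d) *
                ((N : ℝ) * (N : ℝ) ^ ((m : ℝ) - 1 + ε)) *
                (1 + Real.log (y * Y * N)) ^ (K3 + K4) := by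
              rw [hAdef, pow_add]
              ring
          _ = _ := by rw [h8, h9]

end Pool.Agent.H88.LX
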