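import Pool.Agent.H20.LX.T
import Pool.Agent.H88.LX.H2XG

/-!
# MP_52e316_nt, page LX, row H2X: the square of the majorant (target of helper20)
-/

set_option autoImplicit false

namespace Pool.Agent.H88.LX

open MeasureTheory Pool.Agent.H27.L1.H34.GM Pool.Agent.H27.L1.H34.GZ Pool.Agent.H27.L1.H34.GU
  Pool.Agent.H27.L1.H68.GHY

theorem pf_H2X20 : T_UNL → T_VTH → T_CLD → T_CNV → T_CNT → T_ALU → T_ALZ → T_IDX →
    Pool.Agent.H20.LX.T_H2X := by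
  classical
  intro hUNL hVTH hCLD hCNV hCNT hALU hALZ hIDX m hm
  obtain ⟨C, C0, hC, hC0, h⟩ := pf_H2X hUNL hVTH hCLD hCNV hCNT hALU hALZ hIDX m hm
  refine ⟨C, C0, hC, hC0, ?_⟩
  intro N _ D hN hD ω h0 hT x0 d hx0 hd hd2 b n a k hS sel vs hsel x hx
  refine (h N D hN hD ω h0 hT x0 d hx0 hd hd2 b n a k hS sel vs hsel x hx).trans ?_
  refine mul_le_mul_right (ENNReal.tsum_le_tsum fun L => ?_) _
  by_cases h1 : wd x0 d L.index ∧ L.index ≠ 0
  · rw [if_pos h1, if_pos ⟨h1.2, h1.1⟩]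
  · rw [if_neg (fun h2 => h1 ⟨h2.2, h2.1⟩)]
    exact bot_le

end Pool.Agent.H88.LX
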